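import Pool.Agent.Q240.SD.Stm
import Pool.Agent.Q79.EW.Gn

/-!
# Project SD (helper240): the transform of a bump function (JOB SD-PSI)
-/

set_option autoImplicit false

open Complex Filter Topology Set MeasureTheory

namespace Pool.Agent.Q193.SD

open Pool.Agent.Y23 (TT)
open Pool.Agent.Q240.EW
open Pool.Agent.Q79.EW (bump_sm)
open Pool.Agent.Q240.SD

variable {ψ : ℝ → ℝ}

lemma Ps_eq (ψ : ℝ → ℝ) (w : ℂ) : Ps ψ w = ∫ x : ℝ, (ψ x : ℂ) * cexp (w * x) := rfl

lemma cont (hψ : Bump ψ) : Continuous ψ := (hψ.smooth 0).continuous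

lemma hcs (hψ : Bump ψ) : HasCompactSupport ψ := by
  refine HasCompactSupport.of_support_subset_isCompact (isCompact_Icc (a := (-1 : ℝ)) (b := 1)) fun x hx => ?_
  by_contra h
  refine hx (hψ.supp x ?_)
  rw [mem_Icc, not_and_or, not_le, not_le] at h
  rcases h with h | h
  · exact le_abs.2 (Or.inr (by linarith))
  · exact le_abs.2 (Or.inl h.le)

/-- integrability against a continuous function -/
lemma int_mul (hψ : Bump ψ) {f : ℝ → ℂ} (hf : Continuous f) : Integrable fun x : ℝ => (ψ x : ℂ) * f x := by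
  have h1 : Continuous fun x : ℝ => (ψ x : ℂ) * f x := (Complex.continuous_ofReal.comp (cont hψ)).mul hf
  refine h1.integrable_of_hasCompactSupport ?_
  refine HasCompactSupport.mul_right ?_
  exact (hcs hψ).comp_left (g := fun x : ℝ => (x : ℂ)) Complex.ofReal_zero

lemma int_mulR (hψ : Bump ψ) {f : ℝ → ℝ} (hf : Continuous f) : Integrable fun x : ℝ => ψ x * f x :=
  ((cont hψ).mul hf).integrable_of_hasCompactSupport ((hcs hψ).mul_right)

lemma Ps_neg (hψ : Bump ψ) (w : ℂ) : Ps ψ (-w) = Ps ψ w := by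
  rw [Ps_eq, Ps_eq, ← integral_neg_eq_self (fun x : ℝ => (ψ x : ℂ) * cexp (w * x))]
  congr 1
  funext x
  rw [hψ.even x]
  congr 2
  push_cast
  ring

lemma Ps_conj (ψ : ℝ → ℝ) (w : ℂ) : Ps ψ ((starRingEnd ℂ) w) = (starRingEnd ℂ) (Ps ψ w) := by
  rw [Ps_eq, Ps_eq, ← integral_conj]
  congr 1
  funext x
  rw [map_mul, ← Complex.exp_conj, map_mul, Complex.conj_ofReal, Complex.conj_ofReal]

lemma Ps_le (hψ : Bump ψ) (w : ℂ) : ‖Ps ψ w‖ ≤ Real.exp |w.re| := by
  rw [Ps_eq]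
  have h : ∀ x : ℝ, ‖(ψ x : ℂ) * cexp (w * x)‖ ≤ ψ x * Real.exp |w.re| := by
    intro x
    rw [norm_mul, Complex.norm_real, Real.norm_eq_abs, abs_of_nonneg (hψ.nonneg x), Complex.norm_exp]
    rcases le_or_gt 1 |x| with hx | hx
    · rw [hψ.supp x hx, zero_mul, zero_mul]
    · refine mul_le_mul_of_nonneg_left (Real.exp_le_exp.2 ?_) (hψ.nonneg x)
      rw [Complex.re_mul_ofReal]
      calc w.re * x ≤ |w.re * x| := le_abs_self _
        _ = |w.re| * |x| := abs_mul _ _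
        _ ≤ |w.re| * 1 := mul_le_mul_of_nonneg_left hx.le (abs_nonneg _)
        _ = |w.re| := mul_one _
  refine (norm_integral_le_of_norm_le ((int_mulR hψ continuous_const)) (Eventually.of_forall h)).trans ?_
  rw [integral_mul_const, hψ.one, one_mul]

/-- the real part as an integral -/
lemma re_eq (hψ : Bump ψ) (w : ℂ) : (Ps ψ w).re = ∫ x : ℝ, ψ x * (Real.exp (w.re * x) * Real.cos (w.im * x)) := by
  have h1 : (Ps ψ w).re = ∫ x : ℝ, ((ψ x : ℂ) * cexp (w * x)).re := by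
    rw [Ps_eq]
    have := integral_re (int_mul hψ (f := fun x : ℝ => cexp (w * x)) (by fun_prop))
    simpa using this.symm
  rw [h1]
  congr 1
  funext x
  rw [Complex.re_ofReal_mul, Complex.exp_re, Complex.re_mul_ofReal, Complex.im_mul_ofReal]

/-- the imaginary part as an integral -/
lemma im_eq (hψ : Bump ψ) (w : ℂ) : (Ps ψ w).im = ∫ x : ℝ, ψ x * (Real.exp (w.re * x) * Real.sin (w.im * x)) := by
  have h1 : (Ps ψ w).im = ∫ x : ℝ, ((ψ x : ℂ) * cexp (w * x)).im := by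
    rw [Ps_eq]
    have := integral_im (int_mul hψ (f := fun x : ℝ => cexp (w * x)) (by fun_prop))
    simpa using this.symm
  rw [h1]
  congr 1
  funext x
  rw [Complex.im_ofReal_mul, Complex.exp_im, Complex.re_mul_ofReal, Complex.im_mul_ofReal]

/-- symmetrisation -/
lemma sym (hψ : Bump ψ) {f : ℝ → ℝ} (hf : Continuous f) :
    ∫ x : ℝ, ψ x * f x = ∫ x : ℝ, ψ x * ((f x + f (-x)) / 2) := by
  have h1 : ∫ x : ℝ, ψ x * f x = ∫ x : ℝ, ψ x * f (-x) := by
    rw [← integral_neg_eq_self (fun x : ℝ => ψ x * f x)]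
    congr 1
    funext x
    rw [hψ.even x]
  have h2 : ∫ x : ℝ, ψ x * ((f x + f (-x)) / 2) = (∫ x : ℝ, ψ x * f x) / 2 + (∫ x : ℝ, ψ x * f (-x)) / 2 := by
    rw [← integral_div, ← integral_div, ← integral_add ((int_mulR hψ hf).div_const 2) ((int_mulR hψ (f := fun x => f (-x)) (hf.comp continuous_neg)).div_const 2)]
    congr 1
    funext x
    ring
  rw [h2, ← h1]
  ring

lemma re_low (hψ : Bump ψ) {w : ℂ} (hi : |w.im| ≤ 21 / 20) : 4487 / 10000 ≤ (Ps ψ w).re := by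
  rw [re_eq hψ, sym hψ (by fun_prop)]
  have h0 : (4487 / 10000 : ℝ) = ∫ x : ℝ, ψ x * (4487 / 10000) := by rw [integral_mul_const, hψ.one, one_mul]
  rw [h0]
  refine integral_mono (int_mulR hψ continuous_const) (int_mulR hψ (by fun_prop)) fun x => ?_
  change ψ x * (4487 / 10000) ≤ ψ x * _
  rcases le_or_gt 1 |x| with hx | hx
  · rw [hψ.supp x hx, zero_mul, zero_mul]
  refine mul_le_mul_of_nonneg_left ?_ (hψ.nonneg x)
  have e1 : (Real.exp (w.re * x) * Real.cos (w.im * x) + Real.exp (w.re * -x) * Real.cos (w.im * -x)) / 2 = Real.cosh (w.re * x) * Real.cos (w.im * x) := by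
    rw [mul_neg, mul_neg, Real.cos_neg, Real.cosh_eq]
    ring
  rw [e1]
  have h2 := Real.one_sub_sq_div_two_le_cos (x := w.im * x)
  have h3 : (w.im * x) ^ 2 ≤ (21 / 20) ^ 2 := by
    have : |w.im * x| ≤ 21 / 20 := by
      rw [abs_mul]
      calc |w.im| * |x| ≤ (21 / 20) * 1 := mul_le_mul hi hx.le (abs_nonneg _) (by norm_num)
        _ = 21 / 20 := mul_one _
    exact sq_le_sq' (by linarith [(abs_le.1 this).1]) (abs_le.1 this).2
  have h4 := Real.one_le_cosh (w.re * x)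
  have h5 : 4487 / 10000 ≤ Real.cos (w.im * x) := by nlinarith
  nlinarith

lemma im_up (hψ : Bump ψ) {w : ℂ} (hr : |w.re| ≤ 1 / 20) : |(Ps ψ w).im| ≤ Real.sinh (1 / 20) := by
  rw [im_eq hψ, sym hψ (by fun_prop)]
  have h0 : Real.sinh (1 / 20) = ∫ x : ℝ, ψ x * Real.sinh (1 / 20) := by rw [integral_mul_const, hψ.one, one_mul]
  rw [h0, ← Real.norm_eq_abs]
  refine norm_integral_le_of_norm_le (int_mulR hψ continuous_const) (Eventually.of_forall fun x => ?_)
  rw [norm_mul, Real.norm_eq_abs, Real.norm_eq_abs, abs_of_nonneg (hψ.nonneg x)]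
  rcases le_or_gt 1 |x| with hx | hx
  · rw [hψ.supp x hx, zero_mul, zero_mul]
  refine mul_le_mul_of_nonneg_left ?_ (hψ.nonneg x)
  have e1 : (Real.exp (w.re * x) * Real.sin (w.im * x) + Real.exp (w.re * -x) * Real.sin (w.im * -x)) / 2 = Real.sinh (w.re * x) * Real.sin (w.im * x) := by
    rw [mul_neg, mul_neg, Real.sin_neg, Real.sinh_eq]
    ring
  rw [e1, abs_mul]
  have h2 : |Real.sin (w.im * x)| ≤ 1 := Real.abs_sin_le_one _
  have h3 : |Real.sinh (w.re * x)| ≤ Real.sinh (1 / 20) := by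
    have h4 : |w.re * x| ≤ 1 / 20 := by
      rw [abs_mul]
      calc |w.re| * |x| ≤ (1 / 20) * 1 := mul_le_mul hr hx.le (abs_nonneg _) (by norm_num)
        _ = 1 / 20 := mul_one _
    rw [abs_le, ← Real.sinh_neg]
    exact ⟨Real.sinh_le_sinh.2 (abs_le.1 h4).1, Real.sinh_le_sinh.2 (abs_le.1 h4).2⟩
  calc |Real.sinh (w.re * x)| * |Real.sin (w.im * x)| ≤ Real.sinh (1 / 20) * 1 :=
        mul_le_mul h3 h2 (abs_nonneg _) (Real.sinh_nonneg_iff.2 (by norm_num))
    _ = _ := mul_one _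

lemma norm_up (hψ : Bump ψ) {w : ℂ} (hr : |w.re| ≤ 1 / 20) : ‖Ps ψ w‖ ≤ Real.cosh (1 / 20) := by
  have h1 : ‖Ps ψ w‖ ≤ ∫ x : ℝ, ψ x * Real.exp (w.re * x) := by
    rw [Ps_eq]
    refine norm_integral_le_of_norm_le (int_mulR hψ (by fun_prop)) (Eventually.of_forall fun x => ?_)
    rw [norm_mul, Complex.norm_real, Real.norm_eq_abs, abs_of_nonneg (hψ.nonneg x), Complex.norm_exp, Complex.re_mul_ofReal]
  refine h1.trans ?_
  rw [sym hψ (by fun_prop)]
  have h0 : Real.cosh (1 / 20) = ∫ x : ℝ, ψ x * Real.cosh (1 / 20) := by rw [integral_mul_const, hψ.one, one_mul]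
  rw [h0]
  refine integral_mono (int_mulR hψ (by fun_prop)) (int_mulR hψ continuous_const) fun x => ?_
  change ψ x * _ ≤ ψ x * _
  rcases le_or_gt 1 |x| with hx | hx
  · rw [hψ.supp x hx, zero_mul, zero_mul]
  refine mul_le_mul_of_nonneg_left ?_ (hψ.nonneg x)
  have e1 : (Real.exp (w.re * x) + Real.exp (w.re * -x)) / 2 = Real.cosh (w.re * x) := by
    rw [mul_neg, Real.cosh_eq]
  rw [e1]
  refine Real.cosh_le_cosh.2 ?_
  rw [abs_mul, abs_of_pos (by norm_num : (0 : ℝ) < 1 / 20)]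
  calc |w.re| * |x| ≤ (1 / 20) * 1 := mul_le_mul hr hx.le (abs_nonneg _) (by norm_num)
    _ = 1 / 20 := mul_one _

lemma exp_b : Real.exp (1 / 20) ≤ 1.0513 := by
  have h := Real.exp_bound' (x := 1 / 20) (by norm_num) (by norm_num) (n := 3) (by norm_num)
  norm_num [Finset.sum_range_succ, Nat.factorial] at h ⊢
  linarith

lemma exp_nb : 0.95 ≤ Real.exp (-(1 / 20)) := by
  have := Real.add_one_le_exp (-(1 / 20 : ℝ))
  norm_num at this ⊢
  linarith

lemma exp_nu : Real.exp (-(1 / 20)) ≤ 0.9525 := by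
  rw [Real.exp_neg]
  have h : (1.05 : ℝ) ≤ Real.exp (1 / 20) := by
    have := Real.add_one_le_exp (1 / 20 : ℝ)
    norm_num at this ⊢
    linarith
  calc (Real.exp (1 / 20))⁻¹ ≤ (1.05 : ℝ)⁻¹ := inv_anti₀ (by norm_num) h
    _ ≤ 0.9525 := by norm_num

/-- JOB SD-PSI -/
theorem psi : S_Psi := by
  intro ψ hψ
  refine ⟨Ps_neg hψ, Ps_conj ψ, Ps_le hψ, fun k => ?_, fun w hr hi => ?_⟩
  · obtain ⟨C, hC, h⟩ := Pool.Agent.Q214.PR.Sm.decay one_pos (bump_sm hψ) k
    refine ⟨C + 1, by linarith, fun w hw => (h w hw).trans ?_⟩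
    exact div_le_div_of_nonneg_right (by linarith) (by positivity)
  · have h1 := re_low hψ hi
    have h2 := im_up hψ hr
    have h3 := norm_up hψ hr
    have hs : Real.sinh (1 / 20) ≤ 0.051 := by
      rw [Real.sinh_eq]
      linarith [exp_b, exp_nb]
    have hc : Real.cosh (1 / 20) ≤ 1.002 := by
      rw [Real.cosh_eq]
      linarith [exp_b, exp_nu]
    constructor
    · have e : (Ps ψ w ^ 2).re = (Ps ψ w).re ^ 2 - (Ps ψ w).im ^ 2 := by
        rw [sq, Complex.mul_re]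
        ring
      rw [e]
      have h4 : |(Ps ψ w).im| ≤ 0.051 := h2.trans hs
      have h5 : (Ps ψ w).im ^ 2 ≤ 0.051 ^ 2 := by
        refine sq_le_sq' (by linarith [(abs_le.1 h4).1]) (abs_le.1 h4).2
      nlinarith
    · rw [norm_pow]
      have h6 : ‖Ps ψ w‖ ≤ 1.002 := h3.trans hc
      have h7 := norm_nonneg (Ps ψ w)
      nlinarith

end Pool.Agent.Q193.SD
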